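import Pool.Agent.Lib.P50fc31.Main

/-!
# The critical contact process with arbitrary rates on a finite set of sites: no side survives alone

The contact process is given by Harris' graphical representation (`P50fc31.law`, `P50fc31.marks`,
`P50fc31.Path`, `P50fc31.infected`).  The rates `ρ` are the rates `hom lam` (recovery `1`, infection `lam`)
outside of the sites `[-m, m]`, and arbitrary finite rates, with positive recovery rates, on `[-m, m]`.  The
only assumption on `lam` is that the homogeneous contact process with rate `lam` dies out, `theta lam = 0`; it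
holds for the critical value (Bezuidenhout and Grimmett).

Proof: infinitely many unit time windows are not crossed by an infection path in the sites `> m` that starts
and ends at `m + 1` (otherwise such paths overlap, and by planarity they would contain an infinite path).  The
marks of the sites in `[a, m]` are independent of this, so almost surely in infinitely many of these windows
the sites of `[a, m]` recover and do not infect, and do not get infected.  After such a window the process in
the half line `[a, ∞)` lives on the sites `> m` only, where it dies out.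
-/

set_option autoImplicit false

open MeasureTheory ProbabilityTheory Set P50fc31
open scoped NNReal ENNReal

namespace Pool.Agent.Results.MP_50fc31_pr.BothSides

/-- Almost surely, for every set `S` of sites and every finite initial set `A`: if the process inside `S`
survives then `S` is the set of all sites, and every edge `{b, b + 1}` is used by the infection in both
directions at arbitrarily large times. -/
theorem result (lam : ℝ≥0) (h0 : theta lam = 0) (m : ℕ) (ρ : MT → ℝ≥0)
    (hρ : ∀ (κ : Kind) (x : ℤ), (m : ℤ) < |x| → ρ (κ, x) = hom lam (κ, x))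
    (hr : ∀ x : ℤ, 0 < ρ (Kind.recover, x)) :
    ∀ᵐ ω ∂(law ρ), ∀ S A : Set ℤ, A.Finite →
      (∀ t : ℝ, 0 ≤ t → (infected ω S A t).Nonempty) →
      S = univ ∧ ∀ (b : ℤ) (T : ℝ),
        (∃ t, T ≤ t ∧ b ∈ infected ω univ A t ∧ t ∈ marks ω (Kind.right, b)) ∧
        (∃ t, T ≤ t ∧ b + 1 ∈ infected ω univ A t ∧ t ∈ marks ω (Kind.left, b + 1)) := by
  have hρ' : ∀ i : MT, (m : ℤ) < |i.2| → ρ i = hom lam i := fun i hi => hρ i.1 i.2 hi
  filter_upwards [ae_finReach hρ', ae_half h0 hρ' hr, ae_half_flip h0 hρ' hr]
    with ω hF hS hS' S A hA hsurv
  have hSd : ∀ (a x : ℤ) (K : ℕ), ¬ Surv ω (dn a) x K := not_surv_dn hS'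
  have hSu : S = univ := eq_univ_of_surv hA hS hSd hsurv
  subst hSu
  refine ⟨rfl, fun b T => ⟨?_, ?_⟩⟩
  · have hnA : (nset A).Finite := nset_finite hA
    have hsurv' : ∀ t : ℝ, 0 ≤ t → (infected (P50fc31.flip ω) univ (nset A) t).Nonempty := by
      intro t ht
      obtain ⟨y, hy⟩ := hsurv t ht
      exact ⟨-y, infected_flip hy⟩
    have h1 : ∀ (x : ℤ) (K : ℕ), ¬ Surv (P50fc31.flip ω) (dn (-b - 1)) x K := by
      intro x K h2
      have h3 := surv_dn h2
      rw [P50fc31.flip_flip] at h3
      exact hS _ _ K h3
    obtain ⟨t, ht, h2, h3⟩ := infinitely_often (c := -b) hF.flip (hS' (-b)) h1 hnA hsurv' T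
    refine ⟨t, ht, ?_, ?_⟩
    · have h4 := infected_flip' (S := univ) (A := A) h2
      rwa [neg_neg] at h4
    · rw [marks_flip] at h3
      simpa only [flipM, flipK, neg_neg] using h3
  · have h1 : ∀ (x : ℤ) (K : ℕ), ¬ Surv ω (dn (b + 1 - 1)) x K := hSd _
    exact infinitely_often (c := b + 1) hF (hS (b + 1)) h1 hA hsurv T

end Pool.Agent.Results.MP_50fc31_pr.BothSides
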