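import Pool.Agent.Lib.P50fc31.Spread

/-!
# A condition on the homogeneous critical process that every surviving finite modification needs

The contact process is given by Harris' graphical representation (`P50fc31.law`, `P50fc31.marks`,
`P50fc31.Path`, `P50fc31.infected`).  The rates `ρ` are the rates `hom lam` (recovery `1`, infection `lam`)
outside of the sites `[-m, m]`, and arbitrary finite rates, with positive recovery rates, on `[-m, m]`.  The
only assumption on `lam` is that the homogeneous contact process with rate `lam` dies out, `theta lam = 0`; it
holds for the critical value (Bezuidenhout and Grimmett).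

Proof: if infinitely many intervals `[k, k + L]` are crossed neither from the right nor from the left then,
independently of this, almost surely in infinitely many of them the core is isolated and recovers, and the
process dies out.  So on survival almost surely all but finitely many intervals are crossed.  This is, up to a
null event, a tail event, and it depends on the marks outside of the core only.
-/

set_option autoImplicit false

open MeasureTheory ProbabilityTheory Set P50fc31
open scoped NNReal ENNReal

namespace Pool.Agent.Results.MP_50fc31_pr.CrossedIntervals

/-- If for some rates `ρ` on a finite core and some finite initial set the process survives with positive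
probability then in the homogeneous process, for every `L ≥ 1`, almost surely all but finitely many time
intervals `[k, k + L]` are crossed by an infection path from `1` to `1` inside the sites `≥ 1` or by an
infection path from `-1` to `-1` inside the sites `≤ -1`. -/
theorem result (lam : ℝ≥0) (h0 : theta lam = 0) (m : ℕ) (ρ : MT → ℝ≥0)
    (hρ : ∀ (κ : Kind) (x : ℤ), (m : ℤ) < |x| → ρ (κ, x) = hom lam (κ, x))
    (hr : ∀ x : ℤ, 0 < ρ (Kind.recover, x)) (A : Set ℤ) (hA : A.Finite)
    (hs : law ρ {ω | ∀ t : ℝ, 0 ≤ t → (infected ω univ A t).Nonempty} ≠ 0)
    (L : ℕ) (hL : 0 < L) :
    ∀ᵐ ω ∂(law (hom lam)), ∃ K : ℕ, ∀ k, K ≤ k →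
      CrossR ω 1 k (k + L) ∨ CrossL ω (-1) k (k + L) := by
  have hρ' : ∀ i : MT, (m : ℤ) < |i.2| → ρ i = hom lam i := fun i hi => hρ i.1 i.2 hi
  have h1 := ae_cov_one (ae_cov h0 hρ' hr hA hs (M := (m : ℤ)) le_rfl hL)
  filter_upwards [h1] with ω hω
  have h2 := cross_of_cov (M := 0) hL (by rw [zero_add]; exact hω)
  simpa using h2

end Pool.Agent.Results.MP_50fc31_pr.CrossedIntervals
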